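import Mathlib
import Pool.Agent.H935R3.LW.Stmts

set_option autoImplicit false
open Matrix

namespace Pool.Agent.H663R3.LW

open Pool.Agent.H935R3.LW

def WW (c : A3) (p q : Fin 3) : ℝ := c 0 0 p * c 1 1 q - c 0 1 p * c 1 0 q

def W1 (c c1 : A3) (p q : Fin 3) : ℝ :=
  (c1 0 0 p * c 1 1 q + c 0 0 p * c1 1 1 q) - (c1 0 1 p * c 1 0 q + c 0 1 p * c1 1 0 q)

def W2 (c c1 c2 c12 : A3) (p q : Fin 3) : ℝ :=
  ((c12 0 0 p * c 1 1 q + c1 0 0 p * c2 1 1 q) + (c2 0 0 p * c1 1 1 q + c 0 0 p * c12 1 1 q)) -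
  ((c12 0 1 p * c 1 0 q + c1 0 1 p * c2 1 0 q) + (c2 0 1 p * c1 1 0 q + c 0 1 p * c12 1 0 q))

def BB (h : A2) (c : A3) (h1 : A2) (c1 : A3) : ℝ :=
  ∑ p, ∑ q, (h1 p q * WW c p q + h p q * W1 c c1 p q)

def CC (h : A2) (c : A3) (h1 : A2) (c1 : A3) (h2 : A2) (c2 : A3) (h12 : A2) (c12 : A3) : ℝ :=
  ∑ p, ∑ q, ((h12 p q * WW c p q + h1 p q * W1 c c2 p q) +
    (h2 p q * W1 c c1 p q + h p q * W2 c c1 c2 c12 p q))

def H1 (h : A2) (c : A3) (m : Fin 3) (p q : Fin 3) : ℝ := -∑ r, ∑ s, h p r * c r s m * h s q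

def H2 (h : A2) (c : A3) (d : A4) (m n : Fin 3) (p q : Fin 3) : ℝ :=
  -∑ r, ∑ s, ((H1 h c n p r * c r s m + h p r * d r s m n) * h s q +
    h p r * c r s m * H1 h c n s q)

section calculus

variable {h h1 : ℝ → A2} {c c1 : ℝ → A3} {h' h1' : A2} {c' c1' : A3} {t : ℝ}

theorem dWW (hc : ∀ i j k, HasDerivAt (fun t => c t i j k) (c' i j k) t) (p q : Fin 3) :
    HasDerivAt (fun t => WW (c t) p q) (W1 (c t) c' p q) t := by
  unfold WW W1
  exact ((hc 0 0 p).mul (hc 1 1 q)).sub ((hc 0 1 p).mul (hc 1 0 q))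

theorem dW1 (hc : ∀ i j k, HasDerivAt (fun t => c t i j k) (c' i j k) t)
    (hc1 : ∀ i j k, HasDerivAt (fun t => c1 t i j k) (c1' i j k) t) (p q : Fin 3) :
    HasDerivAt (fun t => W1 (c t) (c1 t) p q) (W2 (c t) (c1 t) c' c1' p q) t := by
  unfold W1 W2
  exact (((hc1 0 0 p).mul (hc 1 1 q)).add ((hc 0 0 p).mul (hc1 1 1 q))).sub
    (((hc1 0 1 p).mul (hc 1 0 q)).add ((hc 0 1 p).mul (hc1 1 0 q)))

theorem dA (hh : ∀ p q, HasDerivAt (fun t => h t p q) (h' p q) t)
    (hc : ∀ i j k, HasDerivAt (fun t => c t i j k) (c' i j k) t) :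
    HasDerivAt (fun t => ∑ p, ∑ q, h t p q * WW (c t) p q) (BB (h t) (c t) h' c') t := by
  unfold BB
  exact HasDerivAt.fun_sum fun p _ => HasDerivAt.fun_sum fun q _ => (hh p q).mul (dWW hc p q)

theorem dB (hh : ∀ p q, HasDerivAt (fun t => h t p q) (h' p q) t)
    (hh1 : ∀ p q, HasDerivAt (fun t => h1 t p q) (h1' p q) t)
    (hc : ∀ i j k, HasDerivAt (fun t => c t i j k) (c' i j k) t)
    (hc1 : ∀ i j k, HasDerivAt (fun t => c1 t i j k) (c1' i j k) t) :
    HasDerivAt (fun t => BB (h t) (c t) (h1 t) (c1 t))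
      (CC (h t) (c t) (h1 t) (c1 t) h' c' h1' c1') t := by
  unfold BB CC
  exact HasDerivAt.fun_sum fun p _ => HasDerivAt.fun_sum fun q _ =>
    ((hh1 p q).mul (dWW hc p q)).add ((hh p q).mul (dW1 hc hc1 p q))

end calculus

section fields

variable {F : E3 → ℝ}

theorem curve {g : E3 → ℝ} (hg : ContDiffOn ℝ ((⊤ : ℕ∞) : WithTop ℕ∞) g {x | x ≠ 0})
    {y : E3} (hy : y ≠ 0) (n : Fin 3) :
    HasDerivAt (fun t : ℝ => g (y + t • Pi.single n 1)) (pd n g y) 0 := by
  have ho : IsOpen {x : E3 | x ≠ 0} := isOpen_ne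
  have h1 : DifferentiableAt ℝ g y :=
    ((hg y hy).contDiffAt (ho.mem_nhds hy)).differentiableAt (by simp)
  have h2 : HasFDerivAt g (fderiv ℝ g y) (y + (0 : ℝ) • Pi.single n 1) := by
    simpa using h1.hasFDerivAt
  have h3 : HasDerivAt (fun t : ℝ => y + t • (Pi.single n 1 : E3)) (Pi.single n 1) 0 := by
    have := ((hasDerivAt_id (0 : ℝ)).smul_const (Pi.single n 1 : E3)).const_add y
    simpa using this
  exact h2.comp_hasDerivAt (0 : ℝ) h3

theorem evz {y : E3} (hy : y ≠ 0) (n : Fin 3) :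
    ∀ᶠ t : ℝ in nhds 0, y + t • (Pi.single n 1 : E3) ≠ 0 := by
  have h : Filter.Tendsto (fun t : ℝ => y + t • (Pi.single n 1 : E3)) (nhds 0)
      (nhds (y + (0 : ℝ) • (Pi.single n 1 : E3))) :=
    Continuous.tendsto (by fun_prop) 0
  simp only [zero_smul, add_zero] at h
  exact h.eventually_ne hy

/-- first derivatives -/
theorem first (hB : TaskBasic) (hF : Hyp F) {y : E3} (hy : y ≠ 0) (m : Fin 3) :
    BB (hh F y) (cc F y) (H1 (hh F y) (cc F y) m) (fun i j k => dd F y i j k m) = 0 := by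
  obtain ⟨-, -, -, hc, hd, he, hh', hsym⟩ := hB F hF
  have h1 : ∀ p q, HasDerivAt (fun t : ℝ => hh F (y + t • Pi.single m 1) p q)
      (H1 (hh F y) (cc F y) m p q) 0 := by
    intro p q
    have := curve (hh' p q) hy m
    rw [(hsym y hy).2.2.2.2.2.2.2.2.2.2.2 p q m] at this
    exact this
  have h2 : ∀ i j k, HasDerivAt (fun t : ℝ => cc F (y + t • Pi.single m 1) i j k)
      (dd F y i j k m) 0 := fun i j k => curve (hc i j k) hy m
  have h3 := dA (c' := fun i j k => dd F y i j k m) h1 h2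
  simp only [zero_smul, add_zero] at h3
  have h4 : HasDerivAt (fun t : ℝ => ∑ p, ∑ q, hh F (y + t • Pi.single m 1) p q *
      WW (cc F (y + t • Pi.single m 1)) p q) 0 0 := by
    refine (hasDerivAt_const (0 : ℝ) (0 : ℝ)).congr_of_eventuallyEq ?_
    filter_upwards [evz hy m] with t ht
    exact hF.flat _ ht 0 1 0 1
  exact h3.unique h4

/-- second derivatives -/
theorem second (hB : TaskBasic) (hF : Hyp F) {y : E3} (hy : y ≠ 0) (m n : Fin 3) :
    CC (hh F y) (cc F y) (H1 (hh F y) (cc F y) m) (fun i j k => dd F y i j k m)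
      (H1 (hh F y) (cc F y) n) (fun i j k => dd F y i j k n)
      (H2 (hh F y) (cc F y) (dd F y) m n) (fun i j k => ee F y i j k m n) = 0 := by
  obtain ⟨-, -, -, hc, hd, he, hh', hsym⟩ := hB F hF
  have h1 : ∀ p q, HasDerivAt (fun t : ℝ => hh F (y + t • Pi.single n 1) p q)
      (H1 (hh F y) (cc F y) n p q) 0 := by
    intro p q
    have := curve (hh' p q) hy n
    rw [(hsym y hy).2.2.2.2.2.2.2.2.2.2.2 p q n] at this
    exact this
  have h2 : ∀ i j k, HasDerivAt (fun t : ℝ => cc F (y + t • Pi.single n 1) i j k)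
      (dd F y i j k n) 0 := fun i j k => curve (hc i j k) hy n
  have h5 : ∀ i j k, HasDerivAt (fun t : ℝ => dd F (y + t • Pi.single n 1) i j k m)
      (ee F y i j k m n) 0 := fun i j k => curve (hd i j k m) hy n
  have h6 : ∀ p q, HasDerivAt (fun t : ℝ => H1 (hh F (y + t • Pi.single n 1))
      (cc F (y + t • Pi.single n 1)) m p q) (H2 (hh F y) (cc F y) (dd F y) m n p q) 0 := by
    intro p q
    have := (HasDerivAt.fun_sum (u := Finset.univ) fun r _ =>
      HasDerivAt.fun_sum (u := Finset.univ) fun s _ =>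
      ((h1 p r).mul (h2 r s m)).mul (h1 s q)).neg
    refine HasDerivAt.congr_deriv (f := fun t : ℝ => H1 (hh F (y + t • Pi.single n 1))
      (cc F (y + t • Pi.single n 1)) m p q) this ?_
    simp only [zero_smul, add_zero, Pi.mul_apply]
    rfl
  have h3 := dB (c' := fun i j k => dd F y i j k n) (c1 := fun t i j k =>
    dd F (y + t • Pi.single n 1) i j k m) (c1' := fun i j k => ee F y i j k m n) h1 h6 h2 h5
  simp only [zero_smul, add_zero] at h3
  have h4 : HasDerivAt (fun t : ℝ => BB (hh F (y + t • Pi.single n 1))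
      (cc F (y + t • Pi.single n 1)) (H1 (hh F (y + t • Pi.single n 1))
      (cc F (y + t • Pi.single n 1)) m) (fun i j k => dd F (y + t • Pi.single n 1) i j k m))
      0 0 := by
    refine (hasDerivAt_const (0 : ℝ) (0 : ℝ)).congr_of_eventuallyEq ?_
    filter_upwards [evz hy n] with t ht
    exact first hB hF ht m
  exact h3.unique h4

end fields

end Pool.Agent.H663R3.LW
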