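import Mathlib
import Pool.Agent.H663R3.LW.FlatA

set_option autoImplicit false
set_option maxHeartbeats 4000000
set_option linter.all false
open Matrix

namespace Pool.Agent.H663R3.LW

open Pool.Agent.H935R3.LW

/-- the identity -/
def dl (i j : Fin 3) : ℝ := if i = j then 1 else 0

theorem H1_dl (c : A3) (m : Fin 3) : H1 dl c m = fun p q => -c p q m := by
  funext p q
  simp [H1, dl]

theorem H2_dl (c : A3) (d : A4) (m n p q : Fin 3) : H2 dl c d m n p q =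
    -(d p q m n) + (∑ r, c p r n * c r q m) + ∑ s, c p s m * c s q n := by
  unfold H2
  simp only [H1_dl, Finset.sum_add_distrib, add_mul]
  simp [dl]
  ring

theorem alg (c : A3) (d : A4) (e : A5) (f l1 l2 a p q r b E1 E2 E3' E4 : ℝ) (hf : 0 < f)
    (sc0 : ∀ i j k, c i j k = c j i k) (sc1 : ∀ i j k, c i j k = c i k j)
    (sd0 : ∀ i j k l, d i j k l = d j i k l) (sd1 : ∀ i j k l, d i j k l = d i k j l)
    (sd2 : ∀ i j k l, d i j k l = d i j l k)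
    (se0 : ∀ i j k l m, e i j k l m = e j i k l m) (se1 : ∀ i j k l m, e i j k l m = e i k j l m)
    (se2 : ∀ i j k l m, e i j k l m = e i j l k m) (se3 : ∀ i j k l m, e i j k l m = e i j k m l)
    (hc2 : ∀ i j, c i j 2 = 0) (hd2 : ∀ i j k, d i j k 2 = -c i j k / f)
    (h001 : c 0 0 1 = 0) (h011 : c 0 1 1 = 0) (hl1 : l1 = c 0 0 0) (hl2 : l2 = c 1 1 1)
    (ha : a = d 0 0 0 0) (hp : p = d 0 0 0 1) (hq : q = d 0 0 1 1) (hr : r = d 0 1 1 1)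
    (hb : b = d 1 1 1 1) (hE1 : E1 = e 0 0 0 0 1) (hE2 : E2 = e 0 0 0 1 1)
    (hE3 : E3' = e 0 0 1 1 1) (hE4 : E4 = e 0 1 1 1 1)
    (hB : ∀ m, BB dl c (H1 dl c m) (fun i j k => d i j k m) = 0)
    (hC : ∀ m n, CC dl c (H1 dl c m) (fun i j k => d i j k m) (H1 dl c n)
      (fun i j k => d i j k n) (H2 dl c d m n) (fun i j k => e i j k m n) = 0) :
    l2 * p + l1 * q = 0 ∧ l2 * q + l1 * r = 0 ∧
    l1 * E2 + l2 * E1 - l1 * l2 * p - 2 * l1 ^ 2 * q + 2 * a * q - 2 * p ^ 2 + 2 * p * r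
     - 2 * q ^ 2 = 0 ∧
    l1 * E3' + l2 * E2 - l1 * l2 * q - l1 ^ 2 * r - l2 ^ 2 * p + a * r - p * q + p * b - q * r
     + l1 * l2 / f ^ 2 = 0 ∧
    l1 * E4 + l2 * E3' - l1 * l2 * r - 2 * l2 ^ 2 * q + 2 * p * r - 2 * q ^ 2 + 2 * q * b
     - 2 * r ^ 2 = 0 := by
  have dl00 : dl 0 0 = 1 := rfl
  have dl11 : dl 1 1 = 1 := rfl
  have dl22 : dl 2 2 = 1 := rfl
  have dl01 : dl 0 1 = 0 := rfl
  have dl02 : dl 0 2 = 0 := rfl
  have dl10 : dl 1 0 = 0 := rfl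
  have dl12 : dl 1 2 = 0 := rfl
  have dl20 : dl 2 0 = 0 := rfl
  have dl21 : dl 2 1 = 0 := rfl
  have c000 : c 0 0 0 = l1 := hl1.symm
  have c001 : c 0 0 1 = 0 := h001
  have c002 : c 0 0 2 = 0 := (hc2 0 0)
  have c010 : c 0 1 0 = 0 := (sc1 0 1 0).trans h001
  have c011 : c 0 1 1 = 0 := h011
  have c012 : c 0 1 2 = 0 := (hc2 0 1)
  have c020 : c 0 2 0 = 0 := (sc1 0 2 0).trans (hc2 0 0)
  have c021 : c 0 2 1 = 0 := (sc1 0 2 1).trans (hc2 0 1)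
  have c022 : c 0 2 2 = 0 := (hc2 0 2)
  have c100 : c 1 0 0 = 0 := ((sc0 1 0 0).trans (sc1 0 1 0)).trans h001
  have c101 : c 1 0 1 = 0 := (sc0 1 0 1).trans h011
  have c102 : c 1 0 2 = 0 := (sc0 1 0 2).trans (hc2 0 1)
  have c110 : c 1 1 0 = 0 := ((sc1 1 1 0).trans (sc0 1 0 1)).trans h011
  have c111 : c 1 1 1 = l2 := hl2.symm
  have c112 : c 1 1 2 = 0 := (hc2 1 1)
  have c120 : c 1 2 0 = 0 := ((sc1 1 2 0).trans (sc0 1 0 2)).trans (hc2 0 1)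
  have c121 : c 1 2 1 = 0 := (sc1 1 2 1).trans (hc2 1 1)
  have c122 : c 1 2 2 = 0 := (hc2 1 2)
  have c200 : c 2 0 0 = 0 := ((sc0 2 0 0).trans (sc1 0 2 0)).trans (hc2 0 0)
  have c201 : c 2 0 1 = 0 := ((sc0 2 0 1).trans (sc1 0 2 1)).trans (hc2 0 1)
  have c202 : c 2 0 2 = 0 := (sc0 2 0 2).trans (hc2 0 2)
  have c210 : c 2 1 0 = 0 := ((sc0 2 1 0).trans ((sc1 1 2 0).trans (sc0 1 0 2))).trans (hc2 0 1)
  have c211 : c 2 1 1 = 0 := ((sc0 2 1 1).trans (sc1 1 2 1)).trans (hc2 1 1)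
  have c212 : c 2 1 2 = 0 := (sc0 2 1 2).trans (hc2 1 2)
  have c220 : c 2 2 0 = 0 := ((sc1 2 2 0).trans (sc0 2 0 2)).trans (hc2 0 2)
  have c221 : c 2 2 1 = 0 := ((sc1 2 2 1).trans (sc0 2 1 2)).trans (hc2 1 2)
  have c222 : c 2 2 2 = 0 := (hc2 2 2)
  have d0000 : d 0 0 0 0 = a := ha.symm
  have d0001 : d 0 0 0 1 = p := hp.symm
  have d0002 : d 0 0 0 2 = -l1 / f := ((hd2 0 0 0).trans (by rw [c000]))
  have d0010 : d 0 0 1 0 = p := (sd2 0 0 1 0).trans hp.symm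
  have d0011 : d 0 0 1 1 = q := hq.symm
  have d0012 : d 0 0 1 2 = 0 := ((hd2 0 0 1).trans (by rw [c001]; simp))
  have d0020 : d 0 0 2 0 = -l1 / f := (sd2 0 0 2 0).trans ((hd2 0 0 0).trans (by rw [c000]))
  have d0021 : d 0 0 2 1 = 0 := (sd2 0 0 2 1).trans ((hd2 0 0 1).trans (by rw [c001]; simp))
  have d0022 : d 0 0 2 2 = 0 := ((hd2 0 0 2).trans (by rw [c002]; simp))
  have d0100 : d 0 1 0 0 = p := ((sd1 0 1 0 0).trans (sd2 0 0 1 0)).trans hp.symm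
  have d0101 : d 0 1 0 1 = q := (sd1 0 1 0 1).trans hq.symm
  have d0102 : d 0 1 0 2 = 0 := (sd1 0 1 0 2).trans ((hd2 0 0 1).trans (by rw [c001]; simp))
  have d0110 : d 0 1 1 0 = q := ((sd2 0 1 1 0).trans (sd1 0 1 0 1)).trans hq.symm
  have d0111 : d 0 1 1 1 = r := hr.symm
  have d0112 : d 0 1 1 2 = 0 := ((hd2 0 1 1).trans (by rw [c011]; simp))
  have d0120 : d 0 1 2 0 = 0 := ((sd2 0 1 2 0).trans (sd1 0 1 0 2)).trans ((hd2 0 0 1).trans (by rw [c001]; simp))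
  have d0121 : d 0 1 2 1 = 0 := (sd2 0 1 2 1).trans ((hd2 0 1 1).trans (by rw [c011]; simp))
  have d0122 : d 0 1 2 2 = 0 := ((hd2 0 1 2).trans (by rw [c012]; simp))
  have d0200 : d 0 2 0 0 = -l1 / f := ((sd1 0 2 0 0).trans (sd2 0 0 2 0)).trans ((hd2 0 0 0).trans (by rw [c000]))
  have d0201 : d 0 2 0 1 = 0 := ((sd1 0 2 0 1).trans (sd2 0 0 2 1)).trans ((hd2 0 0 1).trans (by rw [c001]; simp))
  have d0202 : d 0 2 0 2 = 0 := (sd1 0 2 0 2).trans ((hd2 0 0 2).trans (by rw [c002]; simp))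
  have d0210 : d 0 2 1 0 = 0 := ((sd1 0 2 1 0).trans ((sd2 0 1 2 0).trans (sd1 0 1 0 2))).trans ((hd2 0 0 1).trans (by rw [c001]; simp))
  have d0211 : d 0 2 1 1 = 0 := ((sd1 0 2 1 1).trans (sd2 0 1 2 1)).trans ((hd2 0 1 1).trans (by rw [c011]; simp))
  have d0212 : d 0 2 1 2 = 0 := (sd1 0 2 1 2).trans ((hd2 0 1 2).trans (by rw [c012]; simp))
  have d0220 : d 0 2 2 0 = 0 := ((sd2 0 2 2 0).trans (sd1 0 2 0 2)).trans ((hd2 0 0 2).trans (by rw [c002]; simp))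
  have d0221 : d 0 2 2 1 = 0 := ((sd2 0 2 2 1).trans (sd1 0 2 1 2)).trans ((hd2 0 1 2).trans (by rw [c012]; simp))
  have d0222 : d 0 2 2 2 = 0 := ((hd2 0 2 2).trans (by rw [c022]; simp))
  have d1000 : d 1 0 0 0 = p := ((sd0 1 0 0 0).trans ((sd1 0 1 0 0).trans (sd2 0 0 1 0))).trans hp.symm
  have d1001 : d 1 0 0 1 = q := ((sd0 1 0 0 1).trans (sd1 0 1 0 1)).trans hq.symm
  have d1002 : d 1 0 0 2 = 0 := ((sd0 1 0 0 2).trans (sd1 0 1 0 2)).trans ((hd2 0 0 1).trans (by rw [c001]; simp))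
  have d1010 : d 1 0 1 0 = q := ((sd0 1 0 1 0).trans ((sd2 0 1 1 0).trans (sd1 0 1 0 1))).trans hq.symm
  have d1011 : d 1 0 1 1 = r := (sd0 1 0 1 1).trans hr.symm
  have d1012 : d 1 0 1 2 = 0 := (sd0 1 0 1 2).trans ((hd2 0 1 1).trans (by rw [c011]; simp))
  have d1020 : d 1 0 2 0 = 0 := ((sd0 1 0 2 0).trans ((sd2 0 1 2 0).trans (sd1 0 1 0 2))).trans ((hd2 0 0 1).trans (by rw [c001]; simp))
  have d1021 : d 1 0 2 1 = 0 := ((sd0 1 0 2 1).trans (sd2 0 1 2 1)).trans ((hd2 0 1 1).trans (by rw [c011]; simp))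
  have d1022 : d 1 0 2 2 = 0 := (sd0 1 0 2 2).trans ((hd2 0 1 2).trans (by rw [c012]; simp))
  have d1100 : d 1 1 0 0 = q := ((sd1 1 1 0 0).trans ((sd0 1 0 1 0).trans ((sd2 0 1 1 0).trans (sd1 0 1 0 1)))).trans hq.symm
  have d1101 : d 1 1 0 1 = r := ((sd1 1 1 0 1).trans (sd0 1 0 1 1)).trans hr.symm
  have d1102 : d 1 1 0 2 = 0 := ((sd1 1 1 0 2).trans (sd0 1 0 1 2)).trans ((hd2 0 1 1).trans (by rw [c011]; simp))
  have d1110 : d 1 1 1 0 = r := ((sd2 1 1 1 0).trans ((sd1 1 1 0 1).trans (sd0 1 0 1 1))).trans hr.symm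
  have d1111 : d 1 1 1 1 = b := hb.symm
  have d1112 : d 1 1 1 2 = -l2 / f := ((hd2 1 1 1).trans (by rw [c111]))
  have d1120 : d 1 1 2 0 = 0 := ((sd2 1 1 2 0).trans ((sd1 1 1 0 2).trans (sd0 1 0 1 2))).trans ((hd2 0 1 1).trans (by rw [c011]; simp))
  have d1121 : d 1 1 2 1 = -l2 / f := (sd2 1 1 2 1).trans ((hd2 1 1 1).trans (by rw [c111]))
  have d1122 : d 1 1 2 2 = 0 := ((hd2 1 1 2).trans (by rw [c112]; simp))
  have d1200 : d 1 2 0 0 = 0 := ((sd1 1 2 0 0).trans ((sd0 1 0 2 0).trans ((sd2 0 1 2 0).trans (sd1 0 1 0 2)))).trans ((hd2 0 0 1).trans (by rw [c001]; simp))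
  have d1201 : d 1 2 0 1 = 0 := ((sd1 1 2 0 1).trans ((sd0 1 0 2 1).trans (sd2 0 1 2 1))).trans ((hd2 0 1 1).trans (by rw [c011]; simp))
  have d1202 : d 1 2 0 2 = 0 := ((sd1 1 2 0 2).trans (sd0 1 0 2 2)).trans ((hd2 0 1 2).trans (by rw [c012]; simp))
  have d1210 : d 1 2 1 0 = 0 := ((sd1 1 2 1 0).trans ((sd2 1 1 2 0).trans ((sd1 1 1 0 2).trans (sd0 1 0 1 2)))).trans ((hd2 0 1 1).trans (by rw [c011]; simp))
  have d1211 : d 1 2 1 1 = -l2 / f := ((sd1 1 2 1 1).trans (sd2 1 1 2 1)).trans ((hd2 1 1 1).trans (by rw [c111]))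
  have d1212 : d 1 2 1 2 = 0 := (sd1 1 2 1 2).trans ((hd2 1 1 2).trans (by rw [c112]; simp))
  have d1220 : d 1 2 2 0 = 0 := ((sd2 1 2 2 0).trans ((sd1 1 2 0 2).trans (sd0 1 0 2 2))).trans ((hd2 0 1 2).trans (by rw [c012]; simp))
  have d1221 : d 1 2 2 1 = 0 := ((sd2 1 2 2 1).trans (sd1 1 2 1 2)).trans ((hd2 1 1 2).trans (by rw [c112]; simp))
  have d1222 : d 1 2 2 2 = 0 := ((hd2 1 2 2).trans (by rw [c122]; simp))
  have d2000 : d 2 0 0 0 = -l1 / f := ((sd0 2 0 0 0).trans ((sd1 0 2 0 0).trans (sd2 0 0 2 0))).trans ((hd2 0 0 0).trans (by rw [c000]))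
  have d2001 : d 2 0 0 1 = 0 := ((sd0 2 0 0 1).trans ((sd1 0 2 0 1).trans (sd2 0 0 2 1))).trans ((hd2 0 0 1).trans (by rw [c001]; simp))
  have d2002 : d 2 0 0 2 = 0 := ((sd0 2 0 0 2).trans (sd1 0 2 0 2)).trans ((hd2 0 0 2).trans (by rw [c002]; simp))
  have d2010 : d 2 0 1 0 = 0 := ((sd0 2 0 1 0).trans ((sd1 0 2 1 0).trans ((sd2 0 1 2 0).trans (sd1 0 1 0 2)))).trans ((hd2 0 0 1).trans (by rw [c001]; simp))
  have d2011 : d 2 0 1 1 = 0 := ((sd0 2 0 1 1).trans ((sd1 0 2 1 1).trans (sd2 0 1 2 1))).trans ((hd2 0 1 1).trans (by rw [c011]; simp))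
  have d2012 : d 2 0 1 2 = 0 := ((sd0 2 0 1 2).trans (sd1 0 2 1 2)).trans ((hd2 0 1 2).trans (by rw [c012]; simp))
  have d2020 : d 2 0 2 0 = 0 := ((sd0 2 0 2 0).trans ((sd2 0 2 2 0).trans (sd1 0 2 0 2))).trans ((hd2 0 0 2).trans (by rw [c002]; simp))
  have d2021 : d 2 0 2 1 = 0 := ((sd0 2 0 2 1).trans ((sd2 0 2 2 1).trans (sd1 0 2 1 2))).trans ((hd2 0 1 2).trans (by rw [c012]; simp))
  have d2022 : d 2 0 2 2 = 0 := (sd0 2 0 2 2).trans ((hd2 0 2 2).trans (by rw [c022]; simp))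
  have d2100 : d 2 1 0 0 = 0 := ((sd0 2 1 0 0).trans ((sd1 1 2 0 0).trans ((sd0 1 0 2 0).trans ((sd2 0 1 2 0).trans (sd1 0 1 0 2))))).trans ((hd2 0 0 1).trans (by rw [c001]; simp))
  have d2101 : d 2 1 0 1 = 0 := ((sd0 2 1 0 1).trans ((sd1 1 2 0 1).trans ((sd0 1 0 2 1).trans (sd2 0 1 2 1)))).trans ((hd2 0 1 1).trans (by rw [c011]; simp))
  have d2102 : d 2 1 0 2 = 0 := ((sd0 2 1 0 2).trans ((sd1 1 2 0 2).trans (sd0 1 0 2 2))).trans ((hd2 0 1 2).trans (by rw [c012]; simp))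
  have d2110 : d 2 1 1 0 = 0 := ((sd0 2 1 1 0).trans ((sd1 1 2 1 0).trans ((sd2 1 1 2 0).trans ((sd1 1 1 0 2).trans (sd0 1 0 1 2))))).trans ((hd2 0 1 1).trans (by rw [c011]; simp))
  have d2111 : d 2 1 1 1 = -l2 / f := ((sd0 2 1 1 1).trans ((sd1 1 2 1 1).trans (sd2 1 1 2 1))).trans ((hd2 1 1 1).trans (by rw [c111]))
  have d2112 : d 2 1 1 2 = 0 := ((sd0 2 1 1 2).trans (sd1 1 2 1 2)).trans ((hd2 1 1 2).trans (by rw [c112]; simp))
  have d2120 : d 2 1 2 0 = 0 := ((sd0 2 1 2 0).trans ((sd2 1 2 2 0).trans ((sd1 1 2 0 2).trans (sd0 1 0 2 2)))).trans ((hd2 0 1 2).trans (by rw [c012]; simp))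
  have d2121 : d 2 1 2 1 = 0 := ((sd0 2 1 2 1).trans ((sd2 1 2 2 1).trans (sd1 1 2 1 2))).trans ((hd2 1 1 2).trans (by rw [c112]; simp))
  have d2122 : d 2 1 2 2 = 0 := (sd0 2 1 2 2).trans ((hd2 1 2 2).trans (by rw [c122]; simp))
  have d2200 : d 2 2 0 0 = 0 := ((sd1 2 2 0 0).trans ((sd0 2 0 2 0).trans ((sd2 0 2 2 0).trans (sd1 0 2 0 2)))).trans ((hd2 0 0 2).trans (by rw [c002]; simp))
  have d2201 : d 2 2 0 1 = 0 := ((sd1 2 2 0 1).trans ((sd0 2 0 2 1).trans ((sd2 0 2 2 1).trans (sd1 0 2 1 2)))).trans ((hd2 0 1 2).trans (by rw [c012]; simp))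
  have d2202 : d 2 2 0 2 = 0 := ((sd1 2 2 0 2).trans (sd0 2 0 2 2)).trans ((hd2 0 2 2).trans (by rw [c022]; simp))
  have d2210 : d 2 2 1 0 = 0 := ((sd1 2 2 1 0).trans ((sd0 2 1 2 0).trans ((sd2 1 2 2 0).trans ((sd1 1 2 0 2).trans (sd0 1 0 2 2))))).trans ((hd2 0 1 2).trans (by rw [c012]; simp))
  have d2211 : d 2 2 1 1 = 0 := ((sd1 2 2 1 1).trans ((sd0 2 1 2 1).trans ((sd2 1 2 2 1).trans (sd1 1 2 1 2)))).trans ((hd2 1 1 2).trans (by rw [c112]; simp))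
  have d2212 : d 2 2 1 2 = 0 := ((sd1 2 2 1 2).trans (sd0 2 1 2 2)).trans ((hd2 1 2 2).trans (by rw [c122]; simp))
  have d2220 : d 2 2 2 0 = 0 := ((sd2 2 2 2 0).trans ((sd1 2 2 0 2).trans (sd0 2 0 2 2))).trans ((hd2 0 2 2).trans (by rw [c022]; simp))
  have d2221 : d 2 2 2 1 = 0 := ((sd2 2 2 2 1).trans ((sd1 2 2 1 2).trans (sd0 2 1 2 2))).trans ((hd2 1 2 2).trans (by rw [c122]; simp))
  have d2222 : d 2 2 2 2 = 0 := ((hd2 2 2 2).trans (by rw [c222]; simp))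
  have e00001 : e 0 0 0 0 1 = E1 := hE1.symm
  have e00010 : e 0 0 0 1 0 = E1 := (se3 0 0 0 1 0).trans hE1.symm
  have e00011 : e 0 0 0 1 1 = E2 := hE2.symm
  have e00100 : e 0 0 1 0 0 = E1 := ((se2 0 0 1 0 0).trans (se3 0 0 0 1 0)).trans hE1.symm
  have e00101 : e 0 0 1 0 1 = E2 := (se2 0 0 1 0 1).trans hE2.symm
  have e00110 : e 0 0 1 1 0 = E2 := ((se3 0 0 1 1 0).trans (se2 0 0 1 0 1)).trans hE2.symm
  have e00111 : e 0 0 1 1 1 = E3' := hE3.symm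
  have e01000 : e 0 1 0 0 0 = E1 := ((se1 0 1 0 0 0).trans ((se2 0 0 1 0 0).trans (se3 0 0 0 1 0))).trans hE1.symm
  have e01001 : e 0 1 0 0 1 = E2 := ((se1 0 1 0 0 1).trans (se2 0 0 1 0 1)).trans hE2.symm
  have e01010 : e 0 1 0 1 0 = E2 := ((se1 0 1 0 1 0).trans ((se3 0 0 1 1 0).trans (se2 0 0 1 0 1))).trans hE2.symm
  have e01011 : e 0 1 0 1 1 = E3' := (se1 0 1 0 1 1).trans hE3.symm
  have e01100 : e 0 1 1 0 0 = E2 := ((se2 0 1 1 0 0).trans ((se1 0 1 0 1 0).trans ((se3 0 0 1 1 0).trans (se2 0 0 1 0 1)))).trans hE2.symm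
  have e01101 : e 0 1 1 0 1 = E3' := ((se2 0 1 1 0 1).trans (se1 0 1 0 1 1)).trans hE3.symm
  have e01110 : e 0 1 1 1 0 = E3' := ((se3 0 1 1 1 0).trans ((se2 0 1 1 0 1).trans (se1 0 1 0 1 1))).trans hE3.symm
  have e01111 : e 0 1 1 1 1 = E4 := hE4.symm
  have e10000 : e 1 0 0 0 0 = E1 := ((se0 1 0 0 0 0).trans ((se1 0 1 0 0 0).trans ((se2 0 0 1 0 0).trans (se3 0 0 0 1 0)))).trans hE1.symm
  have e10001 : e 1 0 0 0 1 = E2 := ((se0 1 0 0 0 1).trans ((se1 0 1 0 0 1).trans (se2 0 0 1 0 1))).trans hE2.symm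
  have e10010 : e 1 0 0 1 0 = E2 := ((se0 1 0 0 1 0).trans ((se1 0 1 0 1 0).trans ((se3 0 0 1 1 0).trans (se2 0 0 1 0 1)))).trans hE2.symm
  have e10011 : e 1 0 0 1 1 = E3' := ((se0 1 0 0 1 1).trans (se1 0 1 0 1 1)).trans hE3.symm
  have e10100 : e 1 0 1 0 0 = E2 := ((se0 1 0 1 0 0).trans ((se2 0 1 1 0 0).trans ((se1 0 1 0 1 0).trans ((se3 0 0 1 1 0).trans (se2 0 0 1 0 1))))).trans hE2.symm
  have e10101 : e 1 0 1 0 1 = E3' := ((se0 1 0 1 0 1).trans ((se2 0 1 1 0 1).trans (se1 0 1 0 1 1))).trans hE3.symm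
  have e10110 : e 1 0 1 1 0 = E3' := ((se0 1 0 1 1 0).trans ((se3 0 1 1 1 0).trans ((se2 0 1 1 0 1).trans (se1 0 1 0 1 1)))).trans hE3.symm
  have e10111 : e 1 0 1 1 1 = E4 := (se0 1 0 1 1 1).trans hE4.symm
  have e11000 : e 1 1 0 0 0 = E2 := ((se1 1 1 0 0 0).trans ((se0 1 0 1 0 0).trans ((se2 0 1 1 0 0).trans ((se1 0 1 0 1 0).trans ((se3 0 0 1 1 0).trans (se2 0 0 1 0 1)))))).trans hE2.symm
  have e11001 : e 1 1 0 0 1 = E3' := ((se1 1 1 0 0 1).trans ((se0 1 0 1 0 1).trans ((se2 0 1 1 0 1).trans (se1 0 1 0 1 1)))).trans hE3.symm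
  have e11010 : e 1 1 0 1 0 = E3' := ((se1 1 1 0 1 0).trans ((se0 1 0 1 1 0).trans ((se3 0 1 1 1 0).trans ((se2 0 1 1 0 1).trans (se1 0 1 0 1 1))))).trans hE3.symm
  have e11011 : e 1 1 0 1 1 = E4 := ((se1 1 1 0 1 1).trans (se0 1 0 1 1 1)).trans hE4.symm
  have e11100 : e 1 1 1 0 0 = E3' := ((se2 1 1 1 0 0).trans ((se1 1 1 0 1 0).trans ((se0 1 0 1 1 0).trans ((se3 0 1 1 1 0).trans ((se2 0 1 1 0 1).trans (se1 0 1 0 1 1)))))).trans hE3.symm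
  have e11101 : e 1 1 1 0 1 = E4 := ((se2 1 1 1 0 1).trans ((se1 1 1 0 1 1).trans (se0 1 0 1 1 1))).trans hE4.symm
  have e11110 : e 1 1 1 1 0 = E4 := ((se3 1 1 1 1 0).trans ((se2 1 1 1 0 1).trans ((se1 1 1 0 1 1).trans (se0 1 0 1 1 1)))).trans hE4.symm
  have b0 := hB 0
  have b1 := hB 1
  have c0 := hC 0 0
  have c1 := hC 0 1
  have c2 := hC 1 1
  simp only [BB, CC, WW, W1, W2, H1_dl, H2_dl, Fin.sum_univ_three, dl00, dl01, dl02, dl10, dl11, dl12, dl20, dl21, dl22, c000, c001, c002, c010, c011, c012, c020, c021, c022, c100, c101, c102, c110, c111, c112, c120, c121, c122, c200, c201, c202, c210, c211, c212, c220, c221, c222, d0000, d0001, d0002, d0010, d0011, d0012, d0020, d0021, d0022, d0100, d0101, d0102, d0110, d0111, d0112, d0120, d0121, d0122, d0200, d0201, d0202, d0210, d0211, d0212, d0220, d0221, d0222, d1000, d1001, d1002, d1010, d1011, d1012, d1020,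 d1021, d1022, d1100, d1101, d1102, d1110, d1111, d1112, d1120, d1121, d1122, d1200, d1201, d1202, d1210, d1211, d1212, d1220, d1221, d1222, d2000, d2001, d2002, d2010, d2011, d2012, d2020, d2021, d2022, d2100, d2101, d2102, d2110, d2111, d2112, d2120, d2121, d2122, d2200, d2201, d2202, d2210, d2211, d2212, d2220, d2221, d2222, e00001, e00010, e00011, e00100, e00101, e00110, e00111, e01000, e01001, e01010, e01011, e01100, e01101, e01110, e01111, e10000, e10001, e10010, e10011, e10100, e10101, e10110, e10111, e11000, e11001, e11010, e11011, e11100, e11101, e11110,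
    mul_zero, zero_mul, add_zero, zero_add, sub_zero, neg_zero, one_mul, mul_one, sub_self] at b0 b1 c0 c1 c2
  refine ⟨by linear_combination b0, by linear_combination b1, by linear_combination c0, ?_, by linear_combination c2⟩
  have e1 : l1 * l2 / f ^ 2 = (-l1 / f) * (-l2 / f) := by field_simp
  rw [e1]
  linear_combination c1

end Pool.Agent.H663R3.LW
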