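import Mathlib
import Pool.Agent.H663R3.LW.FlatB

set_option autoImplicit false
open Matrix

namespace Pool.Agent.H663R3.LW

open Pool.Agent.H935R3.LW

theorem taskFlatD : TaskFlatD := by
  intro hB hHom F hF f hf x hx hG h001 h011 l1 l2 a p q r b E1 E2 E3' E4 hl1 hl2 ha hp hq hr hb
    hE1 hE2 hE3 hE4
  have hx0 : x ≠ 0 := by
    intro h
    have h1 := congrFun h 2
    rw [hx] at h1
    simp at h1
    exact hf.ne' h1
  have hsym := (hB F hF).2.2.2.2.2.2.2 x hx0
  obtain ⟨-, -, sc0, sc1, sd0, sd1, sd2, se0, se1, se2, se3, -⟩ := hsym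
  have hhom := hHom hB F hF x hx0
  have hh1 : hh F x = dl := by
    funext i j
    simp [hh, hG, dl, Matrix.one_apply]
  have hs : ∀ g : Fin 3 → ℝ, ∑ k, g k * x k = g 2 * f := by
    intro g
    rw [hx, Fin.sum_univ_three]
    simp
  have hc2 : ∀ i j, cc F x i j 2 = 0 := by
    intro i j
    have h1 := hhom.2.2.1 i j
    rw [hs] at h1
    rcases mul_eq_zero.1 h1 with h | h
    · exact h
    · exact absurd h hf.ne'
  have hd2 : ∀ i j k, dd F x i j k 2 = -cc F x i j k / f := by
    intro i j k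
    have h1 := hhom.2.2.2.1 i j k
    rw [hs] at h1
    rw [eq_div_iff hf.ne']
    exact h1
  refine alg (cc F x) (dd F x) (ee F x) f l1 l2 a p q r b E1 E2 E3' E4 hf sc0 sc1 sd0 sd1 sd2
    se0 se1 se2 se3 hc2 hd2 h001 h011 hl1 hl2 ha hp hq hr hb hE1 hE2 hE3 hE4 ?_ ?_
  · intro m
    have := first hB hF hx0 m
    rw [hh1] at this
    exact this
  · intro m n
    have := second hB hF hx0 m n
    rw [hh1] at this
    exact this

end Pool.Agent.H663R3.LW
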